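import Pool.Agent.Helper79.RC.Trace
import Pool.Agent.Helper10.RC.Split
import Pool.Agent.Helper51.RD.Expect
import Pool.Agent.Helper70.RC.Traces

/-!
# RC-14, second part: the splitting lemma in the crossed product (MP_d05fd5_an)
-/

open scoped ENNReal NNReal Topology CStarAlgebra ComplexOrder
open Filter

noncomputable section

namespace Pool.Agent.Helper61.RC

section C
variable {X : Type*} [MetricSpace X] [CompactSpace X]

/-- the matrix with one diagonal entry -/
private def eii (h : X ≃ₜ X) {k : ℕ} (i : Fin k) (f : C(X, ℝ)) : Mat k (Cross h) :=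
  CStarMatrix.ofMatrix (Matrix.of fun a c => if a = i ∧ c = i then cfun h f else 0)

private lemma eii_apply (h : X ≃ₜ X) {k : ℕ} (i a c : Fin k) (f : C(X, ℝ)) :
    eii h i f a c = if a = i ∧ c = i then cfun h f else 0 := rfl

private lemma eii_mul (h : X ≃ₜ X) {k : ℕ} (i : Fin k) (f g : C(X, ℝ)) :
    eii h i f * eii h i g = eii h i (f * g) := by
  refine CStarMatrix.ext fun a c => ?_
  rw [CStarMatrix.mul_apply]
  simp only [eii_apply]
  rw [Finset.sum_eq_single i]
  · by_cases ha : a = i <;> by_cases hc : c = i <;> simp [ha, hc, cfun_mul]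
  · intro l _ hl
    simp [hl]
  · intro hi; exact absurd (Finset.mem_univ _) hi

private lemma eii_star (h : X ≃ₜ X) {k : ℕ} (i : Fin k) (f : C(X, ℝ)) :
    star (eii h i f) = eii h i f := by
  refine CStarMatrix.ext fun a c => ?_
  rw [CStarMatrix.star_apply, eii_apply, eii_apply]
  by_cases ha : a = i <;> by_cases hc : c = i <;> simp [ha, hc, star_cfun]

private lemma eii_add (h : X ≃ₜ X) {k : ℕ} (i : Fin k) (f g : C(X, ℝ)) :
    eii h i f + eii h i g = eii h i (f + g) := by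
  refine CStarMatrix.ext fun a c => ?_
  rw [CStarMatrix.add_apply, eii_apply, eii_apply, eii_apply]
  split_ifs <;> simp [cfun_add]

private lemma eii_nonneg (h : X ≃ₜ X) {k : ℕ} (i : Fin k) {f : C(X, ℝ)} (hf : ∀ x, 0 ≤ f x) :
    0 ≤ eii h i f := by
  let g : C(X, ℝ) := ⟨fun x => Real.sqrt (f x), by fun_prop⟩
  have hg : f = g * g := by
    ext x
    simp [g, Real.mul_self_sqrt (hf x)]
  have h2 : eii h i f = star (eii h i g) * eii h i g := by
    rw [eii_star, eii_mul, ← hg]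
  rw [h2]
  exact star_mul_self_nonneg _

private lemma eii_le_one (h : X ≃ₜ X) {k : ℕ} (i : Fin k) {f : C(X, ℝ)} (hf : ∀ x, f x ≤ 1) :
    eii h i f ≤ 1 := by
  have h1 : (0 : Mat k (Cross h)) ≤ 1 - eii h i 1 := by
    have h2 : (1 : Mat k (Cross h)) - eii h i 1 = star (1 - eii h i 1) * (1 - eii h i 1) := by
      rw [star_sub, star_one, eii_star, sub_mul, mul_sub, mul_sub, eii_mul]
      simp
    rw [h2]
    exact star_mul_self_nonneg _
  have h3 : eii h i f + eii h i (1 - f) = eii h i 1 := by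
    rw [eii_add, add_sub_cancel]
  have h4 : 0 ≤ eii h i (1 - f) := eii_nonneg h i fun x => by
    have := hf x
    simp only [ContinuousMap.sub_apply, ContinuousMap.one_apply]
    linarith
  have h5 : 1 - eii h i f = (1 - eii h i 1) + eii h i (1 - f) := by
    rw [← h3]; abel
  rw [← sub_nonneg, h5]
  exact add_nonneg h1 h4

private lemma exists_star_mul {M : Type*} [CStarAlgebra M] [PartialOrder M] [StarOrderedRing M]
    {b : M} (hb : 0 ≤ b) : ∃ c : M, b = star c * c :=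
  CStarAlgebra.nonneg_iff_eq_star_mul_self.mp hb

private lemma exists_diag_ne (h : X ≃ₜ X) {k : ℕ} (b : Mat k (Cross h)) (hb : 0 ≤ b) (hb0 : b ≠ 0) :
    ∃ (i : Fin k) (x : X), Ex (val h (b i i)) x ≠ 0 := by
  by_contra hcon
  push Not at hcon
  obtain ⟨c, hc⟩ := exists_star_mul hb
  apply hb0
  have hc0 : c = 0 := by
    refine CStarMatrix.ext fun l i => ?_
    rw [CStarMatrix.zero_apply]
    refine Ex_faithful h (c l i) fun x => ?_
    have h1 := hcon i x
    rw [hc, CStarMatrix.mul_apply] at h1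
    simp only [CStarMatrix.star_apply] at h1
    rw [map_sum, Ex_sum] at h1
    have h2 := (Finset.sum_eq_zero_iff_of_nonneg (fun l _ => by
      rw [map_mul, map_star]
      exact Ex_star_mul_self_nonneg _ _)).mp h1 l (Finset.mem_univ _)
    exact h2
  rw [hc, hc0, mul_zero]

theorem exists_split (h : X ≃ₜ X) (hfree : ∀ m : ℤ, m ≠ 0 → ∀ x, (h ^ m) x ≠ x) (k : ℕ)
    (b : Mat (k + 1) (Cross h)) (hb : 0 ≤ b) (hb0 : b ≠ 0) (δ η : ℝ) (hδ : 0 < δ) (hη : 0 < η) :
    ∃ b₁ b₂ : Mat (k + 1) (Cross h), 0 ≤ b₁ ∧ b₁ ≤ 1 ∧ 0 ≤ b₂ ∧ b₂ ≠ 0 ∧ b₁ * b₂ = 0 ∧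
      (∃ C : ℝ, 0 < C ∧ b₁ + b₂ ≤ (C : ℂ) • b) ∧
      ∀ τ : TracialState (Cross h), (τ.mat (fc (ramp δ) b)).re - η ≤ (τ.mat b₁).re := by
  obtain ⟨i, x₀, hi⟩ := exists_diag_ne h b hb hb0
  obtain ⟨O, hO, hx₀, hsmall⟩ := trace_small h hfree x₀ η hη
  obtain ⟨r, hr, hrO⟩ := Metric.isOpen_iff.mp hO x₀ hx₀
  let f : C(X, ℝ) := ⟨fun x => max 0 (1 - 2 * dist x x₀ / r), by fun_prop⟩
  let χ : C(X, ℝ) := ⟨fun x => min 1 (max 0 (2 - 2 * dist x x₀ / r)), by fun_prop⟩
  have hf : ∀ x, f x = max 0 (1 - 2 * dist x x₀ / r) := fun _ => rfl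
  have hχ : ∀ x, χ x = min 1 (max 0 (2 - 2 * dist x x₀ / r)) := fun _ => rfl
  have hd0 : ∀ x, 0 ≤ 2 * dist x x₀ / r := fun x => by positivity
  have hf01 : ∀ x, 0 ≤ f x ∧ f x ≤ 1 := fun x => by
    rw [hf]
    exact ⟨le_max_left _ _, max_le zero_le_one (by linarith [hd0 x])⟩
  have hχ01 : ∀ x, 0 ≤ χ x ∧ χ x ≤ 1 := fun x => by
    rw [hχ]
    exact ⟨le_min zero_le_one (le_max_left _ _), min_le_left _ _⟩
  have hχO : ∀ x, x ∉ O → χ x = 0 := by
    intro x hx
    have h1 : r ≤ dist x x₀ := by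
      by_contra hlt
      exact hx (hrO (Metric.mem_ball.mpr (not_le.mp hlt)))
    have h2 : 2 ≤ 2 * dist x x₀ / r := by
      rw [le_div_iff₀ hr]
      linarith
    rw [hχ, max_eq_left (by linarith), min_eq_right zero_le_one]
  have hχf : χ * f = f := by
    ext x
    rw [ContinuousMap.mul_apply, hf, hχ]
    by_cases hx : 2 * dist x x₀ / r ≤ 1
    · rw [min_eq_left, one_mul]
      exact le_max_of_le_right (by linarith)
    · rw [max_eq_left (by linarith : 1 - 2 * dist x x₀ / r ≤ 0), mul_zero]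
  have hne : b * eii h i f ≠ 0 := by
    intro h0
    have h1 : (b * eii h i f) i i = 0 := by rw [h0]; rfl
    rw [CStarMatrix.mul_apply, Finset.sum_eq_single i] at h1
    · rw [eii_apply, if_pos ⟨rfl, rfl⟩] at h1
      have h2 : Ex (val h (b i i * cfun h f)) x₀ = 0 := by
        rw [h1, map_zero]
        have := Ex_sum (X := X) (∅ : Finset ℕ) (fun _ => 0) x₀
        simpa using this
      rw [map_mul, val_cfun, Ex_mul_mulOp] at h2
      have h3 : (cpx f) x₀ = 1 := by
        rw [cpx_apply, hf, dist_self]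
        simp
      rw [h3, mul_one] at h2
      exact hi h2
    · intro l _ hl
      rw [eii_apply, if_neg (fun h => hl h.1), mul_zero]
    · intro hi'; exact absurd (Finset.mem_univ _) hi'
  obtain ⟨b₁, b₂, h1, h2, h3, h4, h5, h6, h7⟩ := exists_split_abstract b (eii h i f) (eii h i χ) hb
    (eii_nonneg h i fun x => (hf01 x).1) (eii_le_one h i fun x => (hf01 x).2)
    (eii_nonneg h i fun x => (hχ01 x).1) (eii_le_one h i fun x => (hχ01 x).2)
    (by rw [eii_mul, hχf]) hne δ hδ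
  refine ⟨b₁, b₂, h1, h2, h3, h4, h5, h6, fun τ => ?_⟩
  have h8 := h7 τ.mat τ.mat_pos τ.mat_comm
  have h9 : τ.mat (eii h i χ) = τ.toLin (cfun h χ) := by
    change ∑ a, τ.toLin (eii h i χ a a) = _
    rw [Finset.sum_eq_single i]
    · rw [eii_apply, if_pos ⟨rfl, rfl⟩]
    · intro l _ hl
      rw [eii_apply, if_neg (fun h => hl h.1), map_zero]
    · intro hi'; exact absurd (Finset.mem_univ _) hi'
  rw [h9] at h8
  have h10 := hsmall χ hχ01 hχO τ
  linarith

end C

end Pool.Agent.Helper61.RC
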