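import Pool.Agent.Helper61.RC.Base2

/-!
# RC-14, first part: functions with small support have small trace (MP_d05fd5_an)
-/

open scoped ENNReal NNReal Topology CStarAlgebra ComplexOrder
open Filter

noncomputable section

namespace Pool.Agent.Helper61.RC

section C
variable {X : Type*} [MetricSpace X] [CompactSpace X]

/-- a tracial state is monotone -/
private lemma tr_mono {A : Type*} [CStarAlgebra A] [PartialOrder A] [StarOrderedRing A]
    (τ : TracialState A) {a b : A} (hab : a ≤ b) : (τ.toLin a).re ≤ (τ.toLin b).re := by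
  obtain ⟨c, hc⟩ := CStarAlgebra.nonneg_iff_eq_star_mul_self.mp (sub_nonneg.mpr hab)
  have h1 := τ.pos' c
  rw [← hc, map_sub] at h1
  have h2 := (Complex.le_def.mp h1).1
  simp only [Complex.zero_re, Complex.sub_re] at h2
  linarith

private lemma tr_conj (h : X ≃ₜ X) (τ : TracialState (Cross h)) (m : ℤ) (f : C(X, ℝ)) :
    τ.toLin (cfun h (f.comp ((h ^ (-m) : X ≃ₜ X) : C(X, X)))) = τ.toLin (cfun h f) := by
  have h1 : cfun h (f.comp ((h ^ (-m) : X ≃ₜ X) : C(X, X))) = uZ h m * (cfun h f * uZ h (-m)) := by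
    rw [← mul_assoc, uZ_mul_cfun, mul_assoc, ← uZ_add, add_neg_cancel, uZ_zero, mul_one]
  rw [h1, τ.comm', mul_assoc, ← uZ_add, neg_add_cancel, uZ_zero, mul_one]

omit [CompactSpace X] in
/-- a small neighbourhood of a point of a free orbit has disjoint translates -/
private lemma exists_disjoint_nhd (h : X ≃ₜ X) (hfree : ∀ m : ℤ, m ≠ 0 → ∀ x, (h ^ m) x ≠ x) (x₀ : X)
    (N : ℕ) : ∃ O : Set X, IsOpen O ∧ x₀ ∈ O ∧ ∀ m : ℕ, 0 < m → m < N → ∀ x ∈ O,
      (h ^ (m : ℤ)) x ∉ O := by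
  induction N with
  | zero => exact ⟨Set.univ, isOpen_univ, Set.mem_univ _, fun m _ hm => absurd hm (Nat.not_lt_zero m)⟩
  | succ N ih =>
    obtain ⟨O, hO, hx, hd⟩ := ih
    by_cases hN : N = 0
    · exact ⟨O, hO, hx, fun m h0 hm => by omega⟩
    obtain ⟨U, V, hU, hV, hxU, hxV, hUV⟩ :=
      t2_separation (hfree (N : ℤ) (by exact_mod_cast hN) x₀).symm
    refine ⟨O ∩ (U ∩ (h ^ (N : ℤ)) ⁻¹' V), hO.inter (hU.inter (hV.preimage (h ^ (N : ℤ)).continuous)),
      ⟨hx, hxU, hxV⟩, ?_⟩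
    intro m h0 hm x hxO hcon
    rcases Nat.lt_succ_iff_lt_or_eq.mp hm with h1 | h1
    · exact hd m h0 h1 x hxO.1 hcon.1
    · subst h1
      exact (Set.disjoint_left.mp hUV) hcon.2.1 hxO.2.2

-- RC-14
theorem trace_small (h : X ≃ₜ X) (hfree : ∀ m : ℤ, m ≠ 0 → ∀ x, (h ^ m) x ≠ x) (x₀ : X) (η : ℝ)
    (hη : 0 < η) : ∃ O : Set X, IsOpen O ∧ x₀ ∈ O ∧ ∀ χ : C(X, ℝ), (∀ x, 0 ≤ χ x ∧ χ x ≤ 1) →
      (∀ x, x ∉ O → χ x = 0) → ∀ τ : TracialState (Cross h), (τ.toLin (cfun h χ)).re ≤ η := by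
  obtain ⟨N, hN⟩ := exists_nat_gt (1 / η)
  obtain ⟨O, hO, hx, hd⟩ := exists_disjoint_nhd h hfree x₀ N
  refine ⟨O, hO, hx, fun χ hχ hχO τ => ?_⟩
  have hN0 : (0 : ℝ) < N := lt_trans (by positivity) hN
  have hsum : ∀ x, (∑ j ∈ Finset.range N, χ.comp ((h ^ (-(j : ℤ)) : X ≃ₜ X) : C(X, X))) x ≤
      (1 : C(X, ℝ)) x := by
    intro x
    rw [ContinuousMap.sum_apply, ContinuousMap.one_apply]
    simp only [ContinuousMap.comp_apply]
    change ∑ j ∈ Finset.range N, χ ((h ^ (-(j : ℤ))) x) ≤ 1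
    by_cases hex : ∃ j ∈ Finset.range N, (h ^ (-(j : ℤ))) x ∈ O
    · obtain ⟨j, hj, hjO⟩ := hex
      rw [Finset.sum_eq_single j]
      · exact (hχ _).2
      · intro i hi hij
        apply hχO
        intro hiO
        rw [Finset.mem_range] at hi hj
        rcases Nat.lt_or_gt_of_ne hij with hlt | hlt
        · have := hd (j - i) (by omega) (by omega) _ hjO
          apply this
          rw [← Homeomorph.mul_apply, ← zpow_add]
          have h2 : ((j - i : ℕ) : ℤ) + -(j : ℤ) = -(i : ℤ) := by omega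
          rw [h2]
          exact hiO
        · have := hd (i - j) (by omega) (by omega) _ hiO
          apply this
          rw [← Homeomorph.mul_apply, ← zpow_add]
          have h2 : ((i - j : ℕ) : ℤ) + -(i : ℤ) = -(j : ℤ) := by omega
          rw [h2]
          exact hjO
      · intro hj'; exact absurd hj hj'
    · push Not at hex
      rw [Finset.sum_eq_zero fun j hj => hχO _ (hex j hj)]
      exact zero_le_one
  have h1 := tr_mono τ (cfun_mono h hsum)
  rw [cfun_sum, cfun_one, τ.one', map_sum,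
    Finset.sum_congr rfl fun (j : ℕ) _ => tr_conj h τ (j : ℤ) χ,
    Finset.sum_const, Finset.card_range, nsmul_eq_mul] at h1
  simp only [Complex.mul_re, Complex.natCast_re, Complex.natCast_im, zero_mul, sub_zero,
    Complex.one_re] at h1
  have h2 : (τ.toLin (cfun h χ)).re ≤ 1 / N := by
    rw [le_div_iff₀ hN0]
    linarith
  refine h2.trans ?_
  rw [div_le_iff₀ hN0]
  rw [div_lt_iff₀ hη] at hN
  linarith

end C

end Pool.Agent.Helper61.RC
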